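import Pool.Agent.helper80.SV.Spec

set_option autoImplicit false

namespace Pool.Agent.SV

open MvPolynomial Module

theorem PH0 : PH0_stmt := by
  intro ι κ _ _ _ _ c A d r
  have hcut : ∀ x : ι → ℂ, cut Finset.univ x = x := by
    intro x; funext i; simp [cut]
  have key : ∀ (x : Fin r → (ι → ℂ)) (y y' : Fin 0 → (ι → ℂ)),
      Ker (Phi c A Finset.univ d) x y = Ker (Phi1 c Finset.univ d) y' x := by
    intro x y y'
    ext v
    rw [mem_Ker, mem_Ker]
    constructor
    · rintro ⟨h1, _⟩
      refine ⟨fun i => i.elim0, fun i => ?_⟩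
      have := h1 i
      simpa [Phi, Phi1, hcut] using this
    · rintro ⟨_, h1⟩
      refine ⟨fun i => ?_, fun i => i.elim0⟩
      have := h1 i
      simpa [Phi, Phi1, hcut] using this
  unfold dmin
  congr 1
  ext k
  constructor
  · rintro ⟨x, y, h⟩
    refine ⟨y, x, ?_⟩
    rw [← key x y y]; exact h
  · rintro ⟨y, x, h⟩
    refine ⟨x, y, ?_⟩
    rw [key x y y]; exact h

end Pool.Agent.SV
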