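import Pool.Agent.helper80.SV.Spec

set_option autoImplicit false

namespace Pool.Agent.SV

open MvPolynomial Module

theorem RKB_drop {E J : Type} [AddCommGroup E] [Module ℂ E] [Module.Finite ℂ E]
    [Finite J] (φ : E →ₗ[ℂ] (J → ℂ)) (K K' : Submodule ℂ E) (D : ℕ)
    (hK : K ⊓ LinearMap.ker φ ≤ K') (hD : finrank ℂ (LinearMap.range φ) ≤ D) :
    finrank ℂ K ≤ finrank ℂ K' + D := by
  have h1 := LinearMap.finrank_range_add_finrank_ker (φ.domRestrict K)
  have h2 : finrank ℂ (LinearMap.range (φ.domRestrict K)) ≤ finrank ℂ (LinearMap.range φ) := by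
    apply Submodule.finrank_mono
    rintro _ ⟨v, rfl⟩
    exact ⟨v.1, rfl⟩
  have h3 : finrank ℂ (LinearMap.ker (φ.domRestrict K)) ≤ finrank ℂ K' := by
    let g : LinearMap.ker (φ.domRestrict K) →ₗ[ℂ] K' :=
      { toFun := fun v => ⟨v.1.1, hK ⟨v.1.2, by
          have := v.2
          rw [LinearMap.mem_ker] at this
          exact LinearMap.mem_ker.2 this⟩⟩
        map_add' := fun v w => rfl
        map_smul' := fun a v => rfl }
    apply LinearMap.finrank_le_finrank_of_injective (f := g)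
    intro v w h
    apply Subtype.ext
    apply Subtype.ext
    exact congrArg (fun z : K' => (z : E)) h
  omega

theorem RKB : RKB_stmt := by
  intro E P J _ _ _ _ _ _ Φ
  have h00 : dmin Φ 0 0 = finrank ℂ E := by
    obtain ⟨x, y, h⟩ := exists_dmin Φ 0 0
    rw [← h]
    have : Ker Φ x y = ⊤ := by
      rw [eq_top_iff]
      intro v _
      apply mem_Ker.2
      exact ⟨fun i => i.elim0, fun i => i.elim0⟩
    rw [this]
    exact finrank_top ℂ E
  refine ⟨h00, ?_, ?_, ?_⟩
  · intro D hD a b
    obtain ⟨x, y, h⟩ := exists_dmin Φ (a + 1) b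
    refine (dmin_le Φ (fun i : Fin a => x i.castSucc) y).trans ?_
    rw [← h]
    apply RKB_drop (Φ true (x (Fin.last a))) _ _ D _ (hD _)
    intro v hv
    obtain ⟨hv1, hv2⟩ := hv
    replace hv1 := mem_Ker.1 hv1
    apply mem_Ker.2
    refine ⟨fun i => ?_, hv1.2⟩
    refine Fin.lastCases ?_ (fun j => ?_) i
    · exact hv2
    · exact hv1.1 j
  · intro D hD a b
    obtain ⟨x, y, h⟩ := exists_dmin Φ a (b + 1)
    refine (dmin_le Φ x (fun i : Fin b => y i.castSucc)).trans ?_
    rw [← h]
    apply RKB_drop (Φ false (y (Fin.last b))) _ _ D _ (hD _)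
    intro v hv
    obtain ⟨hv1, hv2⟩ := hv
    replace hv1 := mem_Ker.1 hv1
    apply mem_Ker.2
    refine ⟨hv1.1, fun i => ?_⟩
    refine Fin.lastCases ?_ (fun j => ?_) i
    · exact hv2
    · exact hv1.2 j
  · intro D x hD
    have h1 := dmin_le Φ (a := 0) (b := 1) (fun i => i.elim0) (fun _ => x)
    have h2 : finrank ℂ (Ker Φ (a := 0) (b := 1) (fun i => i.elim0) (fun _ => x))
        ≤ finrank ℂ (LinearMap.ker (Φ false x)) := by
      apply Submodule.finrank_mono
      intro v hv
      rw [mem_Ker] at hv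
      exact hv.2 0
    have h3 := LinearMap.finrank_range_add_finrank_ker (Φ false x)
    omega

end Pool.Agent.SV
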